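import Pool.Agent.Helper61.MM.DefsC
import Pool.Agent.Helper61.MM.Barr
import Pool.Agent.Helper66.TJ.Meas

set_option autoImplicit false

/-!
# Exactness and positivity for the canonical pair
-/

namespace Pool.Agent.Helper42.MM

open MeasureTheory ProbabilityTheory Filter Topology Pool.Agent.Helper60.TJ Pool.Agent.Helper61.MM
open scoped symmDiff

variable {lam : Measure ℝ} {κ : Kernel WT Rs} {R : Measure Om}

/-! ### the law of the environment of a triple -/

theorem measurable_bE : Measurable (fun z : Om => bE0 z.1) := by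
  unfold bE0
  refine Measurable.prodMk (measurable_pi_lambda _ fun e => ?_) ?_
  · exact (measurable_fst.comp ((measurable_pi_apply e).comp (measurable_fst.comp measurable_fst)))
  · exact measurable_snd.comp measurable_fst

theorem measurable_spr : Measurable (fun z : Om => spr z.1) := by
  unfold spr
  exact measurable_pi_lambda _ fun e =>
    (measurable_snd.comp ((measurable_pi_apply e).comp (measurable_fst.comp measurable_fst)))

theorem measurable_rs : Measurable rs :=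
  measurable_pi_lambda _ fun _ => measurable_pi_apply _

theorem isProb_coin : IsProbabilityMeasure coin := by
  refine ⟨?_⟩
  unfold coin
  simp only [Measure.smul_apply, Measure.add_apply, measure_univ, smul_eq_mul]
  rw [one_add_one_eq_two, ENNReal.inv_mul_cancel two_ne_zero ENNReal.ofNat_ne_top]

theorem isProb_PB (hl : Wgt lam) : IsProbabilityMeasure (PB lam) := by
  have := hl.prob
  have := isProb_coin
  infer_instance

theorem mp_bE (hl : Wgt lam) (hR : IsR lam κ R) :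
    MeasurePreserving (fun z : Om => bE0 z.1) R (PB lam) := by
  have := hl.prob
  have := isProb_PB hl
  have := hR.mark
  have hm : Measurable
      (fun z : Om => (spr z.1, bE0 z.1, rs z.2.1, rs z.2.2.1, rs z.2.2.2)) := by
    refine measurable_spr.prodMk (measurable_bE.prodMk ?_)
    refine (measurable_rs.comp (measurable_fst.comp measurable_snd)).prodMk ?_
    exact (measurable_rs.comp (measurable_fst.comp (measurable_snd.comp measurable_snd))).prodMk
      (measurable_rs.comp (measurable_snd.comp (measurable_snd.comp measurable_snd)))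
  refine ⟨measurable_bE, ?_⟩
  have h : (Measure.map Prod.snd (R.map
      (fun z : Om => (spr z.1, bE0 z.1, rs z.2.1, rs z.2.2.1, rs z.2.2.2)))).map Prod.fst =
      (Measure.map Prod.snd ((PP lam).prod ((PB lam) ⊗ₘ (κ ×ₖ (κ ×ₖ κ))))).map Prod.fst := by
    rw [hR.law]
  rw [Measure.map_map measurable_snd hm, Measure.map_map measurable_fst (measurable_snd.comp hm)]
    at h
  have h1 : Measure.map Prod.snd ((PP lam).prod ((PB lam) ⊗ₘ (κ ×ₖ (κ ×ₖ κ)))) =
      (PB lam) ⊗ₘ (κ ×ₖ (κ ×ₖ κ)) := Measure.snd_prod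
  have h2 : Measure.map Prod.fst ((PB lam) ⊗ₘ (κ ×ₖ (κ ×ₖ κ))) = PB lam := Measure.fst_compProd _ _
  rw [h1, h2] at h
  exact h

theorem tB_empty (b : WT) : tB ∅ b = b := by
  obtain ⟨w, T⟩ := b
  refine Prod.ext rfl ?_
  funext v
  simp [tB, vx, indV]

/-- from the environment to the triples, after a toggle -/
theorem ae_tB (hl : Wgt lam) (hR : IsR lam κ R) (S : Finset Vx) {P : WT → Prop}
    (h : ∀ᵐ b ∂(PB lam), P b) : ∀ᵐ z ∂(R), P (tB S (bE0 z.1)) :=
  ((mp_tB hl S).comp (mp_bE hl hR)).quasiMeasurePreserving.ae h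

/-! ### the walls of the toggled environment -/

theorem measurable_kfun : Measurable (fun r : Rs => (r ∅).1) :=
  measurable_fst.comp (measurable_pi_apply (∅ : Finset Vx))

theorem isMarkov_kU (κ : Kernel WT Rs) [IsMarkovKernel κ] : IsMarkovKernel (kU κ) := by
  unfold kU
  exact Kernel.IsMarkovKernel.map κ measurable_kfun

theorem measurableSet_OnW (v : Vx) :
    MeasurableSet {q : (Ed → Bool) × (Ed → Bool) | OnW (bx q.1 q.2) v} := by
  have h : {q : (Ed → Bool) × (Ed → Bool) | OnW (bx q.1 q.2) v} =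
      ⋃ d : Dir, {q | bx q.1 q.2 (edg v d) = true} := by
    ext q
    simp [OnW]
  rw [h]
  refine MeasurableSet.iUnion fun d => ?_
  have h2 : Measurable fun q : (Ed → Bool) × (Ed → Bool) => bx q.1 q.2 (edg v d) := by
    unfold bx
    have h3 : Measurable fun q : (Ed → Bool) × (Ed → Bool) => (q.1 (edg v d), q.2 (edg v d)) :=
      ((measurable_pi_apply _).comp measurable_fst).prodMk
        ((measurable_pi_apply _).comp measurable_snd)
    exact (measurable_of_countable fun x : Bool × Bool => xor x.1 x.2).comp h3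
  exact h2 (measurableSet_singleton true)

/-- there are two states of positive probability with a wall through `v` -/
def Mw (κ : Kernel WT Rs) (v : Vx) : Set WT :=
  {b | (kU κ b).prod (kU κ b) {q | OnW (bx q.1 q.2) v} ≠ 0}

theorem measurableSet_Mw (κ : Kernel WT Rs) [IsMarkovKernel κ] (v : Vx) :
    MeasurableSet (Mw κ v) := by
  have := isMarkov_kU κ
  have h : Measurable fun b => (kU κ ×ₖ kU κ) b {q | OnW (bx q.1 q.2) v} :=
    Kernel.measurable_coe _ (measurableSet_OnW v)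
  have h2 : Mw κ v = (fun b => (kU κ ×ₖ kU κ) b {q | OnW (bx q.1 q.2) v}) ⁻¹' {0}ᶜ := by
    ext b
    simp [Mw, Kernel.prod_apply]
  rw [h2]
  exact h (measurableSet_singleton 0).compl

theorem mem_Mw {κ : Kernel WT Rs} [IsMarkovKernel κ] {b : WT} {v : Vx} {U U' : Ed → Bool}
    (hU : kU κ b {U} ≠ 0) (hU' : kU κ b {U'} ≠ 0) (h : OnW (bx U U') v) : b ∈ Mw κ v := by
  have := isMarkov_kU κ
  intro h0
  have h1 : ({U} : Set (Ed → Bool)) ×ˢ {U'} ⊆ {q | OnW (bx q.1 q.2) v} := by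
    rintro ⟨a, a'⟩ ⟨ha, ha'⟩
    rw [Set.mem_singleton_iff] at ha ha'
    simp only at ha ha'
    subst ha ha'
    exact h
  have h2 := measure_mono_null h1 h0
  rw [Measure.prod_prod] at h2
  exact (mul_ne_zero hU hU') h2

theorem not_OnW_self (U : Ed → Bool) (v : Vx) : ¬ OnW (bx U U) v := by
  rintro ⟨d, hd⟩
  simp [bx] at hd

theorem onW_of_mem {κ : Kernel WT Rs} [IsMarkovKernel κ] {b : WT} {v : Vx} {U U' : Ed → Bool}
    {S : Set (Ed → Bool)} (hS : S.ncard = 2) (hS1 : kU κ b S = 1) (hU : U ∈ S) (hU' : U' ∈ S)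
    (hne : U ≠ U') (h : b ∈ Mw κ v) : OnW (bx U U') v := by
  have := isMarkov_kU κ
  by_contra hn
  apply h
  have hfin : S.Finite := Set.finite_of_ncard_pos (by omega)
  have hSe : S = {U, U'} := by
    refine (Set.eq_of_subset_of_ncard_le ?_ ?_ hfin).symm
    · intro x hx
      rcases hx with rfl | hx
      · exact hU
      · rw [Set.mem_singleton_iff.1 hx]; exact hU'
    · rw [hS, Set.ncard_pair hne]
  have h0 : kU κ b Sᶜ = 0 := (prob_compl_eq_zero_iff hfin.measurableSet).2 hS1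
  have h1 : {q : (Ed → Bool) × (Ed → Bool) | OnW (bx q.1 q.2) v} ⊆
      (Sᶜ ×ˢ Set.univ) ∪ (Set.univ ×ˢ Sᶜ) := by
    rintro ⟨a, a'⟩ hq
    by_cases ha : a ∈ S
    · by_cases ha' : a' ∈ S
      · exfalso
        rw [hSe] at ha ha'
        have hq' : OnW (bx a a') v := hq
        rcases ha with rfl | ha
        · rcases ha' with rfl | ha'
          · exact not_OnW_self _ _ hq'
          · rw [Set.mem_singleton_iff.1 ha'] at hq'; exact hn hq'
        · rw [Set.mem_singleton_iff.1 ha] at hq'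
          rcases ha' with rfl | ha'
          · rw [bx_comm] at hq'; exact hn hq'
          · rw [Set.mem_singleton_iff.1 ha'] at hq'; exact not_OnW_self _ _ hq'
      · exact Or.inr ⟨Set.mem_univ _, ha'⟩
    · exact Or.inl ⟨ha, Set.mem_univ _⟩
  refine measure_mono_null h1 (measure_union_null ?_ ?_)
  · rw [Measure.prod_prod, h0, zero_mul]
  · rw [Measure.prod_prod, h0, mul_zero]

/-! ### positivity -/

theorem canon_pos' (hl : Wgt lam) (hR : IsR lam κ R) {C : WT → Set (Ed → Bool)}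
    (hmem : ∀ S : Finset Vx, ∀ᵐ z ∂(R), ∀ i, uu (rp z i) (S, ∅) ∈ C (tB S (bE0 z.1)))
    (v : Vx) :
    R (Ex2 0 v) ≤ PB lam {b | OnC C b 0 ∧ OnC C b v ∧
      OnC C (tB ({0} ∆ {v}) b) 0 ∧ OnC C (tB ({0} ∆ {v}) b) v} := by
  have hmp := mp_bE hl hR
  have h1 : R (Ex2 0 v) ≤ R ((fun z : Om => bE0 z.1) ⁻¹' {b | OnC C b 0 ∧ OnC C b v ∧
      OnC C (tB ({0} ∆ {v}) b) 0 ∧ OnC C (tB ({0} ∆ {v}) b) v}) := by
    refine measure_mono_ae ?_
    filter_upwards [hmem ∅, hmem ({0} ∆ {v})] with z h0 hS hz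
    have h0' : ∀ i, uu (rp z i) g0 ∈ C (bE0 z.1) := by
      intro i
      have := h0 i
      rwa [tB_empty] at this
    obtain ⟨-, ha, hb, hc, hd⟩ := hz
    refine ⟨⟨_, h0' 0, _, h0' 1, ha⟩, ⟨_, h0' 0, _, h0' 1, hb⟩, ⟨_, hS 0, _, hS 1, hc⟩,
      ⟨_, hS 0, _, hS 1, hd⟩⟩
  refine h1.trans ?_
  have h2 := Measure.le_map_apply hmp.aemeasurable {b | OnC C b 0 ∧ OnC C b v ∧
      OnC C (tB ({0} ∆ {v}) b) 0 ∧ OnC C (tB ({0} ∆ {v}) b) v}
  rwa [hmp.map_eq] at h2

/-! ### exactness -/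

/-- the environment of a point of the wall space -/
def bX (p : XX) : WT := (p.1, par p.2.1)

theorem measurable_bX : Measurable bX :=
  measurable_fst.prodMk (measurable_pi_lambda _ fun v =>
    (measurable_par v).comp (measurable_fst.comp measurable_snd))

theorem measurable_tB (S : Finset Vx) : Measurable (tB S) := by
  unfold tB
  refine measurable_fst.prodMk (measurable_pi_lambda _ fun v => ?_)
  unfold vx
  exact (measurable_of_countable fun x : Bool => xor x (indV S v)).comp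
    ((measurable_pi_apply v).comp measurable_snd)

/-- the points where the segment `X` does not lead to a canonical state -/
def BadX (κ : Kernel WT Rs) (y y' : Vx) (X : Finset Ed) : Set XX :=
  {p | tB ({y} ∆ {y'}) (bX p) ∈ Mw κ y ∧ tB ({y} ∆ {y'}) (bX p) ∈ Mw κ y' ∧
    (∀ e ∈ X, wl p e = true) ∧
      kU κ (tB ({y} ∆ {y'}) (bX p)) {bx p.2.1 (ind X)} = 0}

theorem measurableSet_BadX (κ : Kernel WT Rs) [IsMarkovKernel κ]
    (hmass : Measurable fun q : WT × (Ed → Bool) => kU κ q.1 {q.2}) (y y' : Vx) (X : Finset Ed) :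
    MeasurableSet (BadX κ y y' X) := by
  have hb : Measurable fun p : XX => tB ({y} ∆ {y'}) (bX p) :=
    (measurable_tB _).comp measurable_bX
  have h1 : MeasurableSet {p : XX | tB ({y} ∆ {y'}) (bX p) ∈ Mw κ y} :=
    hb (measurableSet_Mw κ y)
  have h2 : MeasurableSet {p : XX | tB ({y} ∆ {y'}) (bX p) ∈ Mw κ y'} :=
    hb (measurableSet_Mw κ y')
  have hbx : ∀ e : Ed, Measurable fun q : XX => wl q e := by
    intro e
    unfold wl bx
    have h3 : Measurable fun q : XX => (q.2.1 e, q.2.2 e) :=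
      ((measurable_pi_apply _).comp (measurable_fst.comp measurable_snd)).prodMk
        ((measurable_pi_apply _).comp (measurable_snd.comp measurable_snd))
    exact (measurable_of_countable fun x : Bool × Bool => xor x.1 x.2).comp h3
  have h3 : MeasurableSet {p : XX | ∀ e ∈ X, wl p e = true} := by
    have h : {p : XX | ∀ e ∈ X, wl p e = true} = ⋂ e ∈ X, {p | wl p e = true} := by
      ext p
      simp
    rw [h]
    exact MeasurableSet.biInter X.countable_toSet fun e _ => hbx e (measurableSet_singleton true)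
  have h4 : Measurable fun p : XX =>
      kU κ (tB ({y} ∆ {y'}) (bX p)) {bx p.2.1 (ind X)} := by
    have h5 : Measurable fun p : XX => (tB ({y} ∆ {y'}) (bX p), bx p.2.1 (ind X)) := by
      refine hb.prodMk (measurable_pi_lambda _ fun e => ?_)
      unfold bx
      exact (measurable_of_countable fun x : Bool => xor x (ind X e)).comp
        ((measurable_pi_apply e).comp (measurable_fst.comp measurable_snd))
    exact hmass.comp h5
  exact h1.inter (h2.inter (h3.inter (h4 (measurableSet_singleton 0))))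

theorem bad_null (hl : Wgt lam) (hR : IsR lam κ R)
    (hW : IsW lam (QQ R)) (h3 : R (Df 0 1 g0 ∩ Df 0 2 g0 ∩ Df 1 2 g0) = 0)
    {C : WT → Set (Ed → Bool)} (hC : ∀ b, C b = {U | kU κ b {U} ≠ 0})
    (hmass : Measurable fun q : WT × (Ed → Bool) => kU κ q.1 {q.2})
    (htwo : ∀ᵐ b ∂(PB lam), (C b).ncard = 2 ∧ kU κ b (C b) = 1)
    (hmem : ∀ S : Finset Vx, ∀ᵐ z ∂(R), ∀ i, uu (rp z i) (S, ∅) ∈ C (tB S (bE0 z.1)))
    (y y' : Vx) {X : Finset Ed} (hX : par (ind X) = vx (dl y) (dl y')) :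
    QQ R (BadX κ y y' X) = 0 := by
  have := hR.mark
  have hBm := measurableSet_BadX κ hmass y y' X
  unfold QQ
  rw [Measure.map_apply (measurable_pr 0 1 g0) hBm,
    Measure.restrict_apply (measurable_pr 0 1 g0 hBm)]
  obtain ⟨D, hD⟩ := exists_path y y'
  have hbd := bdy_eq hD
  have htg : tg g0 D = (({y} : Finset Vx) ∆ {y'}, (∅ : Finset Ed)) := by
    unfold tg
    rw [hbd]
    refine Prod.ext ?_ rfl
    show (∅ : Finset Vx) ∆ _ = _
    exact bot_symmDiff _
  have hone : ∀ᵐ z ∂(R.restrict (Df 0 1 (tg g0 D))), One (pr 0 1 (tg g0 D) z) := by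
    have h1 := w_one hl hW
    rw [← law_pr hl hR (i := 0) (j := 1) (by decide) (tg g0 D)] at h1
    exact ae_of_ae_map (measurable_pr 0 1 _).aemeasurable h1
  rw [ae_restrict_iff' (measurableSet_Df 0 1 _)] at hone
  have hkey : ∀ᵐ z ∂(R), z ∉ (pr 0 1 g0 ⁻¹' BadX κ y y' X) ∩ Df 0 1 g0 := by
    filter_upwards [hone, barrier' hl hR hW h3 D, hR.ok, hmem ({y} ∆ {y'}),
      ae_tB hl hR ({y} ∆ {y'}) htwo] with z hz1 hz2 hok hzS hz4
    rintro ⟨⟨hM1, hM2, hXw, hzero⟩, hdf⟩
    have hbX : bX (pr 0 1 g0 z) = bE0 z.1 := by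
      refine Prod.ext ?_ ?_
      · funext e
        show ww g0 z.1 e = (z.1.1 e).1
        simp [ww]
      · show par (uu (rp z 0) g0) = z.1.2
        rw [(hok 0).parU g0]
        funext v
        simp [tt, vx, indV]
    rw [hbX] at hM1 hM2 hzero
    have hdf' : z ∈ Df 0 1 (tg g0 D) := hz2.1 hdf
    have hon := hz1 hdf'
    have hU0 : uu (rp z 0) (tg g0 D) ∈ C (tB ({y} ∆ {y'}) (bE0 z.1)) := by
      rw [htg]; exact hzS 0
    have hU1 : uu (rp z 1) (tg g0 D) ∈ C (tB ({y} ∆ {y'}) (bE0 z.1)) := by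
      rw [htg]; exact hzS 1
    have hw1 : OnW (wl (pr 0 1 (tg g0 D) z)) y :=
      onW_of_mem hz4.1 hz4.2 hU0 hU1 hdf' hM1
    have hw2 : OnW (wl (pr 0 1 (tg g0 D) z)) y' :=
      onW_of_mem hz4.1 hz4.2 hU0 hU1 hdf' hM2
    obtain ⟨X', hX'1, hX'2⟩ := hon.2.2 y y' hw1 hw2
    have hex := exact2 (hok 0) (hok 1) g0 (D := D) (X := X) (X' := X') hXw (hX.trans hD.symm)
      hX'1 (hX'2.trans hD.symm)
    rw [hC] at hU0
    apply hU0
    rw [hex.1]
    exact hzero
  exact measure_mono_null (fun z hz => by simpa using hz) (ae_iff.1 hkey)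

theorem canon_ex' (hl : Wgt lam) (hR : IsR lam κ R)
    (hW : IsW lam (QQ R)) (h3 : R (Df 0 1 g0 ∩ Df 0 2 g0 ∩ Df 1 2 g0) = 0)
    {C : WT → Set (Ed → Bool)} (hC : ∀ b, C b = {U | kU κ b {U} ≠ 0})
    (hmass : Measurable fun q : WT × (Ed → Bool) => kU κ q.1 {q.2})
    (hGS : ∀ᵐ b ∂(PB lam), (∀ e, 0 < b.1 e) ∧ NT b.1 ∧ ∀ᵐ U ∂(kU κ b), U ∈ GS b.1 b.2)
    (hat : ∀ᵐ b ∂(PB lam), (C b).Finite ∧ (C b).ncard ≤ 2 ∧ C b ≠ ∅ ∧ kU κ b (C b) = 1)
    (hmem : ∀ S : Finset Vx, ∀ᵐ z ∂(R), ∀ i, uu (rp z i) (S, ∅) ∈ C (tB S (bE0 z.1)))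
    (h2 : ∀ᵐ b ∂(PB lam), (C b).ncard = 2) {c : ENNReal} (hc : c ≠ 0)
    (hcnt : ∀ D : Set XX, MeasurableSet D → QQ R D = c * ∫⁻ b, ctC C D b ∂(PB lam))
    (hcm : ∀ D : Set XX, MeasurableSet D → AEMeasurable (ctC C D) (PB lam))
    (y y' : Vx) : ∀ᵐ b ∂(PB lam), OnC C b y → OnC C b y' →
    OnC C (tB ({y} ∆ {y'}) b) y → OnC C (tB ({y} ∆ {y'}) b) y' →
      ∀ U ∈ C b, ∀ U' ∈ C b, U ≠ U' → ∀ X : Finset Ed, (∀ e ∈ X, bx U U' e = true) →
        par (ind X) = vx (dl y) (dl y') → bx U (ind X) ∈ C (tB ({y} ∆ {y'}) b) := by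
  have := hR.mark
  have htwo : ∀ᵐ b ∂(PB lam), (C b).ncard = 2 ∧ kU κ b (C b) = 1 := by
    filter_upwards [hat, h2] with b hb hb2
    exact ⟨hb2, hb.2.2.2⟩
  have hX : ∀ X : Finset Ed, par (ind X) = vx (dl y) (dl y') →
      ∀ᵐ b ∂(PB lam), ctC C (BadX κ y y' X) b = 0 := by
    intro X hX
    have hBm := measurableSet_BadX κ hmass y y' X
    have h := bad_null hl hR hW h3 hC hmass htwo hmem y y' hX
    rw [hcnt _ hBm] at h
    have h' := (mul_eq_zero.1 h).resolve_left hc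
    exact (lintegral_eq_zero_iff' (hcm _ hBm)).1 h'
  have hall : ∀ᵐ b ∂(PB lam), ∀ X : Finset Ed, par (ind X) = vx (dl y) (dl y') →
      ctC C (BadX κ y y' X) b = 0 := by
    rw [ae_all_iff]
    intro X
    by_cases h : par (ind X) = vx (dl y) (dl y')
    · filter_upwards [hX X h] with b hb _
      exact hb
    · exact Eventually.of_forall fun b h' => absurd h' h
  filter_upwards [hall, hat, hGS] with b hb hfin hgs
  intro _ _ hS1 hS2 U hU U' hU' hne X hXw hXp
  by_contra hn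
  have hpar : par U = b.2 := by
    by_contra hne'
    have h4 := hgs.2.2
    rw [ae_iff] at h4
    have h5 : kU κ b {U} = 0 := by
      refine measure_mono_null (fun V hV => ?_) h4
      rw [Set.mem_singleton_iff.1 hV]
      intro hV'
      exact hne' (funext hV'.1)
    rw [hC] at hU
    exact hU h5
  have hbX : bX (b.1, U, U') = b := by
    unfold bX
    simp only
    rw [hpar]
  have hMw : ∀ v, OnC C (tB ({y} ∆ {y'}) b) v → tB ({y} ∆ {y'}) b ∈ Mw κ v := by
    rintro v ⟨V, hV, V', hV', h⟩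
    rw [hC] at hV hV'
    exact mem_Mw hV hV' h
  have hbad : (b.1, U, U') ∈ BadX κ y y' X := by
    refine ⟨?_, ?_, hXw, ?_⟩
    · rw [hbX]; exact hMw y hS1
    · rw [hbX]; exact hMw y' hS2
    · rw [hbX]
      rw [hC] at hn
      simpa using hn
  have h0 := hb X hXp
  unfold ctC at h0
  rw [Nat.cast_eq_zero] at h0
  have hfin2 : {q : (Ed → Bool) × (Ed → Bool) | q.1 ∈ C b ∧ q.2 ∈ C b ∧ q.1 ≠ q.2 ∧
      (b.1, q.1, q.2) ∈ BadX κ y y' X}.Finite :=
    (hfin.1.prod hfin.1).subset fun q hq => ⟨hq.1, hq.2.1⟩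
  rw [Set.ncard_eq_zero hfin2] at h0
  have h6 : ((U, U') : (Ed → Bool) × (Ed → Bool)) ∈ {q : (Ed → Bool) × (Ed → Bool) | q.1 ∈ C b ∧
      q.2 ∈ C b ∧ q.1 ≠ q.2 ∧ (b.1, q.1, q.2) ∈ BadX κ y y' X} := ⟨hU, hU', hne, hbad⟩
  rw [h0] at h6
  exact h6

end Pool.Agent.Helper42.MM
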